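import Pool.Agent.Lib.MP_688fd0_co.LIN.H42.Merge

/-!
Module COUNT (helper42): the number of components of the new graph which contain an end of an arc.
-/

set_option autoImplicit false

namespace Pool.Agent.Lib.MP_688fd0_co.LIN.H42

open Classical
open Pool.Agent.Lib.MP_688fd0_co.LP (IsP Conn Cyc Symm cay)

universe u

section aux
variable {V : Type*} [Fintype V] {G H : SimpleGraph V}

theorem mem_cyc {K : SimpleGraph V} {v w : V} : w ∈ cyc K v ↔ K.Reachable v w := by
  unfold cyc
  simp

theorem cyc_eq {K : SimpleGraph V} {v w : V} (h : K.Reachable v w) : cyc K v = cyc K w := by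
  ext x
  rw [mem_cyc, mem_cyc]
  exact ⟨fun h' => h.symm.trans h', fun h' => h.trans h'⟩

theorem mem_cov {v : V} : v ∈ cov H ↔ ∃ w, H.Adj v w := by
  unfold cov
  simp

theorem cov_of_reach {p x : V} (hp : p ∈ cov H) (h : H.Reachable p x) : x ∈ cov H := by
  obtain ⟨w⟩ := h.symm
  cases w with
  | nil => exact hp
  | cons h' _ => exact mem_cov.2 ⟨_, h'⟩

/-- the ends of a list -/
theorem card_ends (s : List V) : (Finset.univ.filter (fun v => IsEnd s v)).card ≤ 2 := by
  cases s with
  | nil =>
    have : Finset.univ.filter (fun v => IsEnd ([] : List V) v) = ∅ := by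
      ext v
      simp [IsEnd]
    rw [this]
    simp
  | cons a t =>
    obtain ⟨b, hb⟩ : ∃ b, (a :: t).getLast? = some b := ⟨_, List.getLast?_eq_getLast_of_ne_nil
      (List.cons_ne_nil a t)⟩
    have : Finset.univ.filter (fun v => IsEnd (a :: t) v) ⊆ {a, b} := by
      intro v hv
      rw [Finset.mem_filter] at hv
      rcases hv.2 with h | h
      · simp only [List.head?_cons, Option.some.injEq] at h
        simp [h]
      · rw [hb, Option.some.injEq] at h
        simp [h]
    exact (Finset.card_le_card this).trans Finset.card_le_two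

theorem sum_comps (K : SimpleGraph V) (T : Finset V) (S : Finset V) :
    ∑ Q ∈ T.image (cyc K), (S.filter (fun x => x ∈ Q)).card ≤ S.card := by
  rw [← Finset.card_biUnion]
  · apply Finset.card_le_card
    intro x hx
    rw [Finset.mem_biUnion] at hx
    obtain ⟨Q, -, hx⟩ := hx
    exact (Finset.mem_filter.1 hx).1
  · intro Q hQ Q' hQ' hne
    rw [Finset.mem_coe, Finset.mem_image] at hQ hQ'
    obtain ⟨v, -, rfl⟩ := hQ
    obtain ⟨v', -, rfl⟩ := hQ'
    rw [Function.onFun, Finset.disjoint_left]
    intro x hx hx'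
    rw [Finset.mem_filter, mem_cyc] at hx hx'
    exact hne ((cyc_eq hx.2).trans (cyc_eq hx'.2).symm)

omit [Fintype V] in
theorem exists_head {l : List V} (h : l ≠ []) : ∃ a, l.head? = some a := by
  cases l with
  | nil => exact absurd rfl h
  | cons a t => exact ⟨a, rfl⟩

omit [Fintype V] in
theorem exists_last {l : List V} (h : l ≠ []) : ∃ a, l.getLast? = some a :=
  ⟨_, List.getLast?_eq_getLast_of_ne_nil h⟩

end aux

theorem count : CountStatement.{u} := by
  intro V _ G H mv bs cons Δ hS hdisj hsep hcon hdist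
  have hH := hS.cf
  have harc := hS.arc
  have hpd := hS.arc_disj
  have hcd := hS.con_disj
  -- ends of arcs and of connections
  have hmb : ∀ s ∈ mv, ∀ s' ∈ bs, ∀ v, v ∈ s → v ∈ s' → False := by
    intro s hs s' hs' v hv hv'
    have hne : s ≠ s' := by
      rintro rfl
      exact Finset.disjoint_left.1 hdisj hs hs'
    exact hpd s (Finset.mem_union_left _ hs) s' (Finset.mem_union_right _ hs') hne hv hv'
  have F1 : ∀ s ∈ mv, ∀ v, IsEnd s v → ∃ l ∈ cons, l.head? = some v := by
    intro s hs v hv
    obtain ⟨l, hl, he⟩ := (hS.ends v).1 ⟨s, Finset.mem_union_left _ hs, hv⟩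
    rcases he with he | he
    · exact ⟨l, hl, he⟩
    · obtain ⟨-, s', hs', b, hb, hb'⟩ := hcon l hl
      rw [he, Option.some.injEq] at hb
      subst hb
      exact (hmb s hs s' hs' v (isEnd_mem hv) (isEnd_mem hb')).elim
  have F2 : ∀ s ∈ bs, ∀ v, IsEnd s v → ∃ l ∈ cons, l.getLast? = some v := by
    intro s hs v hv
    obtain ⟨l, hl, he⟩ := (hS.ends v).1 ⟨s, Finset.mem_union_right _ hs, hv⟩
    rcases he with he | he
    · obtain ⟨⟨s', hs', b, hb, hb'⟩, -⟩ := hcon l hl
      rw [he, Option.some.injEq] at hb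
      subst hb
      exact (hmb s' hs' s hs v (isEnd_mem hb') (isEnd_mem hv)).elim
    · exact ⟨l, hl, he⟩
  have hlast : ∀ l ∈ cons, ∃ b, l.getLast? = some b := by
    intro l hl
    exact exists_last (hS.con l hl).1.1
  have hreach : ∀ l ∈ cons, ∀ a b, l.head? = some a → l.getLast? = some b →
      (newG H (mv ∪ bs) cons).Reachable a b := by
    intro l hl a b ha hb
    exact reach_ends (con_chain hl (hS.con l hl).1.2.2) ha hb
  have huniq : ∀ l ∈ cons, ∀ l' ∈ cons, ∀ v, v ∈ l → v ∈ l' → l = l' := by
    intro l hl l' hl' v hv hv'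
    by_contra hne
    exact hcd l hl l' hl' hne hv hv'
  let cut : Finset V := Finset.univ.filter (fun v => ∃ l ∈ cons, l.getLast? = some v)
  have mem_cut : ∀ v, v ∈ cut ↔ ∃ l ∈ cons, l.getLast? = some v := by
    intro v
    simp [cut]
  -- a cut point is an end of an arc on a base
  have F5 : ∀ p ∈ cut, ∃ s ∈ bs, IsEnd s p := by
    intro p hp
    obtain ⟨l, hl, hlp⟩ := (mem_cut p).1 hp
    obtain ⟨-, s', hs', b, hb, hb'⟩ := hcon l hl
    rw [hlp, Option.some.injEq] at hb
    subst hb
    exact ⟨s', hs', hb'⟩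
  -- the other cut point of the mover
  have F3 : ∀ l ∈ cons, ∀ a p, l.head? = some a → l.getLast? = some p →
      ∃ l' ∈ cons, ∃ a' p', l' ≠ l ∧ l'.head? = some a' ∧ l'.getLast? = some p' ∧ p' ≠ p ∧
        H.Reachable a a' ∧ (newG H (mv ∪ bs) cons).Reachable p p' := by
    intro l hl a p ha hp
    obtain ⟨⟨s, hs, a0, ha0, hsa⟩, -⟩ := hcon l hl
    rw [ha, Option.some.injEq] at ha0
    subst ha0
    have hsA : s ∈ mv ∪ bs := Finset.mem_union_left _ hs
    obtain ⟨hsc, hsn, hsl⟩ := harc s hsA
    have hsne : s ≠ [] := by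
      rintro rfl
      simp at hsl
    obtain ⟨x, hx⟩ := exists_head hsne
    obtain ⟨y, hy⟩ := exists_last hsne
    have hxy : x ≠ y := by
      rintro rfl
      obtain ⟨t, rfl⟩ : ∃ t, s = x :: t := by
        cases s with
        | nil => exact absurd rfl hsne
        | cons z t =>
          simp only [List.head?_cons, Option.some.injEq] at hx
          exact ⟨t, by rw [hx]⟩
      have h3 : t ≠ [] := by
        rintro rfl
        simp at hsl
      rw [List.getLast?_cons_of_ne_nil h3] at hy
      exact (List.nodup_cons.1 hsn).1 (List.mem_of_getLast? hy)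
    have hr0 : (restG H (mv ∪ bs)).Reachable x y :=
      arc_ends_reach hH harc hpd hsA
        (fun l' hl' hne x hx y hy => hsep s hs l' hl' hne x hx y hy) hx hy
    -- the other end
    obtain ⟨a', ha', hne', hr1⟩ : ∃ a', IsEnd s a' ∧ a' ≠ a ∧
        (restG H (mv ∪ bs)).Reachable a a' := by
      rcases hsa with h | h
      · rw [hx, Option.some.injEq] at h
        subst h
        exact ⟨y, Or.inr hy, hxy.symm, hr0⟩
      · rw [hy, Option.some.injEq] at h
        subst h
        exact ⟨x, Or.inl hx, hxy, hr0.symm⟩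
    obtain ⟨l', hl', hla'⟩ := F1 s hs a' ha'
    obtain ⟨p', hp'⟩ := hlast l' hl'
    have hll : l' ≠ l := by
      rintro rfl
      rw [ha, Option.some.injEq] at hla'
      exact hne' hla'.symm
    refine ⟨l', hl', a', p', hll, hla', hp', ?_, hr1.mono restG_le, ?_⟩
    · rintro rfl
      exact hll (huniq l' hl' l hl p' (List.mem_of_getLast? hp') (List.mem_of_getLast? hp))
    · exact ((hreach l hl a p ha hp).symm.trans (hr1.mono restG_le_newG)).trans
        (hreach l' hl' a' p' hla' hp')
  -- partner of a cut point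
  have F4 : ∀ p ∈ cut, ∃ p' ∈ cut, p' ≠ p ∧ (restG H (mv ∪ bs)).Reachable p p' := by
    intro p hp
    obtain ⟨s, hs, hsp⟩ := F5 p hp
    obtain ⟨p', hp', hne, hr⟩ := partner V G H (mv ∪ bs) hH harc hpd p
      (mem_endsOf.2 ⟨s, Finset.mem_union_right _ hs, hsp⟩)
    refine ⟨p', ?_, hne, hr⟩
    obtain ⟨s', hs', hsp'⟩ := mem_endsOf.1 hp'
    rcases Finset.mem_union.1 hs' with h | h
    · have hss : s ≠ s' := by
        rintro rfl
        exact Finset.disjoint_left.1 hdisj h hs
      exact absurd (hr.mono restG_le).symm (hsep s' h s (Finset.mem_union_right _ hs) hss p'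
        (isEnd_mem hsp') p (isEnd_mem hsp))
    · exact (mem_cut p').2 (F2 s' h p' hsp')
  -- the inequality for one component
  have key : ∀ Q ∈ (endsOf (mv ∪ bs)).image (cyc (newG H (mv ∪ bs) cons)),
      4 * Δ ≤ Δ * (cut.filter (fun x => x ∈ Q)).card + 4 * ((cov H).filter (fun x => x ∈ Q)).card := by
    intro Q hQ
    rw [Finset.mem_image] at hQ
    obtain ⟨v, hv, rfl⟩ := hQ
    -- a cut point in the component
    obtain ⟨l, hl, a, p, ha, hp, hvp⟩ : ∃ l ∈ cons, ∃ a p, l.head? = some a ∧
        l.getLast? = some p ∧ (newG H (mv ∪ bs) cons).Reachable v p := by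
      obtain ⟨s, hs, hsv⟩ := mem_endsOf.1 hv
      rcases Finset.mem_union.1 hs with h | h
      · obtain ⟨l, hl, hlv⟩ := F1 s h v hsv
        obtain ⟨p, hp⟩ := hlast l hl
        exact ⟨l, hl, v, p, hlv, hp, hreach l hl v p hlv hp⟩
      · obtain ⟨l, hl, hlv⟩ := F2 s h v hsv
        obtain ⟨a, ha⟩ := exists_head (hS.con l hl).1.1
        exact ⟨l, hl, a, v, ha, hlv, SimpleGraph.Reachable.refl _⟩
    have hpc : p ∈ cut := (mem_cut p).2 ⟨l, hl, hp⟩
    obtain ⟨l', hl', a', q, hll, ha', hq, hqp, hraa, hrpq⟩ := F3 l hl a p ha hp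
    have hqc : q ∈ cut := (mem_cut q).2 ⟨l', hl', hq⟩
    obtain ⟨p1, hp1, hp1p, hrp1⟩ := F4 p hpc
    obtain ⟨q1, hq1, hq1q, hrq1⟩ := F4 q hqc
    by_cases hr : (restG H (mv ∪ bs)).Reachable p q
    · -- long component
      have hd : Δ ≤ H.dist p q :=
        hdist l hl l' hl' (Ne.symm hll) a a' p q ha ha' hraa hp hq (hr.mono restG_le)
      obtain ⟨w, hw⟩ := hr.exists_isPath
      have h1 : H.dist p q ≤ w.length := by
        have := SimpleGraph.dist_le (w.mapLe (restG_le (H := H) (arcs := mv ∪ bs)))
        simpa using this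
      have hpcov : p ∈ cov H := by
        obtain ⟨s, hs, hsp⟩ := F5 p hpc
        have hodd := (odd_dg_restG hH harc hpd p).2
          (mem_endsOf.2 ⟨s, Finset.mem_union_right _ hs, hsp⟩)
        by_contra hcon'
        rw [mem_cov] at hcon'
        push Not at hcon'
        have : dg (restG H (mv ∪ bs)) p = 0 := by
          unfold dg
          rw [Finset.card_eq_zero, Finset.filter_eq_empty_iff]
          intro x _ hx
          exact hcon' x hx.1
        rw [this] at hodd
        exact absurd hodd (by decide)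
      have h2 : w.support.toFinset ⊆ (cov H).filter (fun x => x ∈ cyc (newG H (mv ∪ bs) cons) v) := by
        intro x hx
        rw [List.mem_toFinset] at hx
        have hrx : (restG H (mv ∪ bs)).Reachable p x := ⟨w.takeUntil x hx⟩
        rw [Finset.mem_filter, mem_cyc]
        exact ⟨cov_of_reach hpcov (hrx.mono restG_le), hvp.trans (hrx.mono restG_le_newG)⟩
      have h3 := Finset.card_le_card h2
      rw [List.toFinset_card_of_nodup hw.support_nodup, SimpleGraph.Walk.length_support] at h3
      have h4 : Δ ≤ ((cov H).filter (fun x => x ∈ cyc (newG H (mv ∪ bs) cons) v)).card := by omega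
      calc 4 * Δ ≤ 4 * ((cov H).filter (fun x => x ∈ cyc (newG H (mv ∪ bs) cons) v)).card :=
            Nat.mul_le_mul_left _ h4
        _ ≤ _ := Nat.le_add_left _ _
    · -- four cut points
      have hsub : ({p, p1, q, q1} : Finset V) ⊆
          cut.filter (fun x => x ∈ cyc (newG H (mv ∪ bs) cons) v) := by
        intro x hx
        simp only [Finset.mem_insert, Finset.mem_singleton] at hx
        rw [Finset.mem_filter, mem_cyc]
        rcases hx with rfl | rfl | rfl | rfl
        · exact ⟨hpc, hvp⟩
        · exact ⟨hp1, hvp.trans (hrp1.mono restG_le_newG)⟩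
        · exact ⟨hqc, hvp.trans hrpq⟩
        · exact ⟨hq1, (hvp.trans hrpq).trans (hrq1.mono restG_le_newG)⟩
      have hcard : ({p, p1, q, q1} : Finset V).card = 4 := by
        have n1 : p ≠ p1 := hp1p.symm
        have n2 : p ≠ q := hqp.symm
        have n3 : p ≠ q1 := by
          rintro rfl
          exact hr hrq1.symm
        have n4 : p1 ≠ q := by
          rintro rfl
          exact hr hrp1
        have n5 : p1 ≠ q1 := by
          rintro rfl
          exact hr (hrp1.trans hrq1.symm)
        have n6 : q ≠ q1 := hq1q.symm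
        rw [Finset.card_insert_of_notMem (by simp [n1, n2, n3]),
          Finset.card_insert_of_notMem (by simp [n4, n5]), Finset.card_pair n6]
      have h3 := Finset.card_le_card hsub
      rw [hcard] at h3
      calc 4 * Δ = Δ * 4 := mul_comm _ _
        _ ≤ Δ * (cut.filter (fun x => x ∈ cyc (newG H (mv ∪ bs) cons) v)).card :=
            Nat.mul_le_mul_left _ h3
        _ ≤ _ := Nat.le_add_right _ _
  -- number of cut points
  have hcutle : cut.card ≤ 2 * mv.card := by
    have h1 : cut.card ≤ (mv.biUnion (fun s => Finset.univ.filter (fun v => IsEnd s v))).card := by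
      refine Finset.card_le_card_of_forall_subsingleton
        (fun p a => ∃ l ∈ cons, l.head? = some a ∧ l.getLast? = some p) ?_ ?_
      · intro p hp
        obtain ⟨l, hl, hlp⟩ := (mem_cut p).1 hp
        obtain ⟨⟨s, hs, a, ha, hsa⟩, -⟩ := hcon l hl
        refine ⟨a, ?_, l, hl, ha, hlp⟩
        rw [Finset.mem_biUnion]
        exact ⟨s, hs, by simpa using hsa⟩
      · intro a _ p hp q hq
        obtain ⟨-, l, hl, hla, hlp⟩ := hp
        obtain ⟨-, l', hl', hla', hlq⟩ := hq
        have : l = l' := huniq l hl l' hl' a (isEnd_mem (Or.inl hla)) (isEnd_mem (Or.inl hla'))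
        subst this
        rw [hlp, Option.some.injEq] at hlq
        exact hlq
    refine h1.trans (Finset.card_biUnion_le.trans ?_)
    calc ∑ s ∈ mv, (Finset.univ.filter (fun v => IsEnd s v)).card ≤ ∑ _s ∈ mv, 2 :=
          Finset.sum_le_sum fun s _ => card_ends s
      _ = 2 * mv.card := by rw [Finset.sum_const, smul_eq_mul, mul_comm]
  have hsum := Finset.sum_le_sum key
  rw [Finset.sum_const, smul_eq_mul, Finset.sum_add_distrib, ← Finset.mul_sum, ← Finset.mul_sum]
    at hsum
  have s1 := sum_comps (newG H (mv ∪ bs) cons) (endsOf (mv ∪ bs)) cut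
  have s2 := sum_comps (newG H (mv ∪ bs) cons) (endsOf (mv ∪ bs)) (cov H)
  have s3 := Nat.mul_le_mul_left Δ (s1.trans hcutle)
  generalize ((endsOf (mv ∪ bs)).image (cyc (newG H (mv ∪ bs) cons))).card = n at *
  nlinarith

end Pool.Agent.Lib.MP_688fd0_co.LIN.H42
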