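import Pool.Agent.Lib.MP_688fd0_co.LIN.H42.Count

/-!
Module GLUEP (helper42): cycles joined by disjoint connections give a long path.
-/

set_option autoImplicit false

namespace Pool.Agent.Lib.MP_688fd0_co.LIN.H42

open Classical
open Pool.Agent.Lib.MP_688fd0_co.LP (IsP Conn Cyc Symm cay)

universe u

section arcs
variable {V : Type*} {K : SimpleGraph V}

theorem isP_reverse {l : List V} (h : IsP K l) : IsP K l.reverse := by
  refine ⟨by simpa using h.1, ?_, by simpa using h.2.2⟩
  rw [List.isChain_reverse]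
  exact h.2.1.imp fun _ _ h => h.symm

theorem isChain_mid {R : V → V → Prop} {l₁ l₂ : List V} (h : l₂.IsChain R) (hin : l₁ <:+: l₂) :
    l₁.IsChain R := by
  obtain ⟨s, t, rfl⟩ := hin
  rw [List.append_assoc, List.isChain_append] at h
  exact (List.isChain_append.1 h.2.1).1

theorem two_arcs {s m t : List V} {x y : V} (h : Cyc K (s ++ x :: (m ++ y :: t))) :
    ∃ l : List V, IsP K l ∧ l.head? = some x ∧ l.getLast? = some y ∧
      (∀ v ∈ l, v ∈ s ++ x :: (m ++ y :: t)) ∧ (s ++ x :: (m ++ y :: t)).length ≤ 2 * l.length := by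
  obtain ⟨⟨-, hch, hnd⟩, -, a, b, ha, hb, hab⟩ := h
  by_cases hlen : (s ++ x :: (m ++ y :: t)).length ≤ 2 * (x :: (m ++ [y])).length
  · have e : s ++ x :: (m ++ y :: t) = s ++ (x :: (m ++ [y])) ++ t := by simp
    have hin : x :: (m ++ [y]) <:+: s ++ x :: (m ++ y :: t) := ⟨s, t, e.symm⟩
    refine ⟨x :: (m ++ [y]), ⟨by simp, isChain_mid hch hin, hnd.sublist hin.sublist⟩, rfl, ?_, ?_, hlen⟩
    · rw [← List.cons_append, List.getLast?_append]
      simp
    · exact fun v hv => hin.subset hv
  · have hA : IsP K ((y :: t) ++ (s ++ [x])) := by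
      refine ⟨by simp, ?_, ?_⟩
      · rw [List.isChain_append]
        refine ⟨?_, ?_, ?_⟩
        · exact isChain_mid hch ⟨s ++ x :: m, [], by simp⟩
        · exact isChain_mid hch ⟨[], m ++ y :: t, by simp⟩
        · intro u hu v hv
          have hu' : (y :: t).getLast? = some u := hu
          have hv' : (s ++ [x]).head? = some v := hv
          have e1 : (s ++ x :: (m ++ y :: t)).getLast? = some u := by
            have : s ++ x :: (m ++ y :: t) = (s ++ x :: m) ++ (y :: t) := by simp
            rw [this, List.getLast?_append, hu']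
            rfl
          have e2 : (s ++ x :: (m ++ y :: t)).head? = some v := by
            rw [← hv']
            cases s <;> simp
          rw [e1, Option.some.injEq] at hb
          rw [e2, Option.some.injEq] at ha
          rw [hb, ha]
          exact hab
      · rw [List.nodup_append_comm]
        refine hnd.sublist ?_
        have : s ++ x :: (m ++ y :: t) = (s ++ [x]) ++ (m ++ y :: t) := by simp
        rw [this]
        exact List.Sublist.append_left (List.sublist_append_right m (y :: t)) _
    refine ⟨_, isP_reverse hA, ?_, ?_, ?_, ?_⟩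
    · simp
    · rw [List.getLast?_reverse]
      simp
    · intro v hv
      rw [List.mem_reverse] at hv
      simp only [List.mem_append, List.mem_cons, List.not_mem_nil, or_false] at hv ⊢
      tauto
    · simp only [List.length_append, List.length_cons, List.length_reverse, List.length_nil] at hlen ⊢
      omega

end arcs

section cycles
variable {V : Type u} [Fintype V] {G H : SimpleGraph V}

theorem long_arc (hE : EnumStatement.{u}) (hH : CF G H) {x y : V} (hx : x ∈ cov H)
    (hxy : H.Reachable x y) (hne : x ≠ y) :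
    ∃ l : List V, IsP H l ∧ l.head? = some x ∧ l.getLast? = some y ∧
      (∀ v ∈ l, H.Reachable x v) ∧ (cyc H x).card ≤ 2 * l.length := by
  obtain ⟨c, hc, hmem⟩ := hE V G H hH x hx
  have hcard : (cyc H x).card = c.length := by
    have : cyc H x = c.toFinset := by
      ext w
      rw [mem_cyc, List.mem_toFinset, hmem]
    rw [this, List.toFinset_card_of_nodup hc.1.2.2]
  have hxc : x ∈ c := (hmem x).2 (SimpleGraph.Reachable.refl _)
  have hyc : y ∈ c := (hmem y).2 hxy
  obtain ⟨s, t, rfl⟩ := List.append_of_mem hxc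
  rw [List.mem_append, List.mem_cons] at hyc
  rcases hyc with hy | rfl | hy
  · obtain ⟨s', m, rfl⟩ := List.append_of_mem hy
    have e : s' ++ y :: m ++ x :: t = s' ++ y :: (m ++ x :: t) := by simp
    rw [e] at hc hmem hcard
    obtain ⟨l, h1, h2, h3, h4, h5⟩ := two_arcs hc
    refine ⟨l.reverse, isP_reverse h1, ?_, ?_, ?_, ?_⟩
    · rw [List.head?_reverse]
      exact h3
    · rw [List.getLast?_reverse]
      exact h2
    · intro v hv
      rw [List.mem_reverse] at hv
      exact (hmem v).1 (h4 v hv)
    · rw [List.length_reverse, hcard]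
      exact h5
  · exact absurd rfl hne
  · obtain ⟨m, t', rfl⟩ := List.append_of_mem hy
    obtain ⟨l, h1, h2, h3, h4, h5⟩ := two_arcs hc
    exact ⟨l, h1, h2, h3, fun v hv => (hmem v).1 (h4 v hv), by rw [hcard]; exact h5⟩

theorem cycs_spec {S : Finset V} (hS : S ∈ cycs H) {x : V} (hx : x ∈ S) :
    x ∈ cov H ∧ S = cyc H x := by
  unfold cycs at hS
  rw [Finset.mem_image] at hS
  obtain ⟨v, hv, rfl⟩ := hS
  rw [mem_cyc] at hx
  exact ⟨cov_of_reach hv hx, cyc_eq hx⟩

theorem cycs_nonempty {S : Finset V} (hS : S ∈ cycs H) : ∃ x, x ∈ S := by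
  unfold cycs at hS
  rw [Finset.mem_image] at hS
  obtain ⟨v, hv, rfl⟩ := hS
  exact ⟨v, mem_cyc.2 (SimpleGraph.Reachable.refl _)⟩

/-- a second vertex of a cycle -/
theorem cycs_other {S : Finset V} (hS : S ∈ cycs H) {x : V} (hx : x ∈ S) :
    ∃ y ∈ S, y ≠ x := by
  obtain ⟨h1, h2⟩ := cycs_spec hS hx
  obtain ⟨y, hy⟩ := mem_cov.1 h1
  refine ⟨y, ?_, fun h => H.loopless.irrefl x (h ▸ hy)⟩
  rw [h2, mem_cyc]
  exact hy.reachable

omit [Fintype V] in
theorem ends_decomp {l : List V} {a b : V} (ha : l.head? = some a) (hb : l.getLast? = some b)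
    (hne : a ≠ b) : ∃ m, l = a :: (m ++ [b]) := by
  cases l with
  | nil => simp at ha
  | cons x t =>
    simp only [List.head?_cons, Option.some.injEq] at ha
    subst ha
    cases t with
    | nil =>
      simp only [List.getLast?_singleton, Option.some.injEq] at hb
      exact absurd hb hne
    | cons y t' =>
      rw [List.getLast?_cons_of_ne_nil (List.cons_ne_nil y t')] at hb
      rw [List.getLast?_eq_some_iff] at hb
      obtain ⟨m, hm⟩ := hb
      exact ⟨m, by rw [hm]⟩

end cycles

theorem gluep (hE : EnumStatement.{u}) : GluepStatement.{u} := by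
  intro V _ G H N Dc c hH hD hDne hc hdis
  have hdD : ∀ i ≤ N, ∀ j ≤ N, ∀ v, v ∈ Dc i → v ∈ Dc j → i = j := by
    intro i hi j hj v hv hv'
    by_contra hne
    exact hDne i hi j hj hne ((cycs_spec (hD i hi) hv).2.trans (cycs_spec (hD j hj) hv').2.symm)
  have hcov : ∀ i ≤ N, ∀ v ∈ Dc i, v ∈ cov H := fun i hi v hv => (cycs_spec (hD i hi) hv).1
  -- the shape of the connections
  have hshape : ∀ i < N, ∃ a ∈ Dc i, ∃ b ∈ Dc (i + 1), ∃ m : List V, c i = a :: (m ++ [b]) ∧
      (∀ v ∈ m, v ∉ cov H) := by
    intro i hi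
    obtain ⟨h1, ⟨a, ha, ha'⟩, ⟨b, hb, hb'⟩, hin⟩ := hc i hi
    have hab : a ≠ b := by
      rintro rfl
      have := hdD i hi.le (i + 1) hi a ha hb
      omega
    obtain ⟨m, hm⟩ := ends_decomp ha' hb' hab
    refine ⟨a, ha, b, hb, m, hm, ?_⟩
    intro v hv
    apply hin v
    rw [hm]
    simpa using hv
  -- the induction
  have main : ∀ k, k ≤ N → ∀ a ∈ Dc k, (∀ j, j + 1 = k → a ∉ c j) → ∃ P, IsP G P ∧
      P.getLast? = some a ∧ ∑ i ∈ Finset.range (k + 1), (Dc i).card ≤ 2 * P.length ∧
      ∀ v ∈ P, (∃ i ≤ k, v ∈ Dc i) ∨ (∃ j < k, v ∈ c j ∧ v ∉ cov H) := by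
    intro k
    induction k with
    | zero =>
      intro h0 a ha _
      obtain ⟨x, hx, hxa⟩ := cycs_other (hD 0 h0) ha
      obtain ⟨hx1, hx2⟩ := cycs_spec (hD 0 h0) hx
      have hr : H.Reachable x a := by
        rw [hx2, mem_cyc] at ha
        exact ha
      obtain ⟨l, h1, h2, h3, h4, h5⟩ := long_arc hE hH hx1 hr hxa
      refine ⟨l, ⟨h1.1, h1.2.1.imp fun _ _ h => hH.le h, h1.2.2⟩, h3, ?_, ?_⟩
      · rw [Finset.sum_range_one, hx2]
        exact h5
      · intro v hv
        refine Or.inl ⟨0, le_rfl, ?_⟩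
        rw [hx2, mem_cyc]
        exact h4 v hv
    | succ k ih =>
      intro hk a ha hak
      obtain ⟨a0, ha0, b0, hb0, m, hm, hmc⟩ := hshape k hk
      have ha0c : ∀ j, j + 1 = k → a0 ∉ c j := by
        intro j hj h
        refine hdis j (by omega) k (by omega) (by omega) h ?_
        rw [hm]
        simp
      obtain ⟨P, hP, hPl, hPs, hPm⟩ := ih (by omega) a0 ha0 ha0c
      have hne : b0 ≠ a := by
        rintro rfl
        apply hak k rfl
        rw [hm]
        simp
      obtain ⟨hb1, hb2⟩ := cycs_spec (hD (k + 1) hk) hb0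
      have hr : H.Reachable b0 a := by
        rw [hb2, mem_cyc] at ha
        exact ha
      obtain ⟨l, h1, h2, h3, h4, h5⟩ := long_arc hE hH hb1 hr hne
      obtain ⟨P', rfl⟩ := List.getLast?_eq_some_iff.1 hPl
      obtain ⟨l', rfl⟩ : ∃ l', l = b0 :: l' := by
        cases l with
        | nil => simp at h2
        | cons z l' =>
          simp only [List.head?_cons, Option.some.injEq] at h2
          exact ⟨l', by rw [h2]⟩
      have hlD : ∀ v ∈ b0 :: l', v ∈ Dc (k + 1) := by
        intro v hv
        rw [hb2, mem_cyc]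
        exact h4 v hv
      have hckG := (hc k hk).1
      rw [hm] at hckG
      refine ⟨(P' ++ [a0]) ++ (m ++ (b0 :: l')), ⟨by simp, ?_, ?_⟩, ?_, ?_, ?_⟩
      · have e : (P' ++ [a0]) ++ (m ++ (b0 :: l')) = P' ++ a0 :: (m ++ b0 :: l') := by simp
        rw [e, List.isChain_split]
        refine ⟨hP.2.1, ?_⟩
        have e2 : a0 :: (m ++ b0 :: l') = (a0 :: m) ++ b0 :: l' := by simp
        rw [e2, List.isChain_split]
        refine ⟨?_, h1.2.1.imp fun _ _ h => hH.le h⟩
        simpa using hckG.2.1
      · rw [List.nodup_append]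
        have hmn : m.Nodup := by
          refine hckG.2.2.sublist ?_
          exact (List.sublist_append_left m [b0]).trans (List.sublist_cons_self _ _)
        refine ⟨hP.2.2, List.nodup_append.2 ⟨hmn, h1.2.2, ?_⟩, ?_⟩
        · intro v hv w hw hvw
          subst hvw
          exact hmc v hv (hcov (k + 1) hk v (hlD v hw))
        · intro v hv w hw hvw
          subst hvw
          rw [List.mem_append] at hw
          rcases hPm v hv with ⟨i, hi, hvi⟩ | ⟨j, hj, hvj, hvn⟩
          · rcases hw with hw | hw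
            · exact hmc v hw (hcov i (by omega) v hvi)
            · have := hdD i (by omega) (k + 1) hk v hvi (hlD v hw)
              omega
          · rcases hw with hw | hw
            · refine hdis j (by omega) k (by omega) (by omega) hvj ?_
              rw [hm]
              simp [hw]
            · exact hvn (hcov (k + 1) hk v (hlD v hw))
      · have e3 : (P' ++ [a0]) ++ (m ++ (b0 :: l')) = ((P' ++ [a0]) ++ m) ++ (b0 :: l') := by simp
        rw [e3, List.getLast?_append, h3]
        rfl
      · rw [Finset.sum_range_succ, hb2]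
        rw [List.length_append, List.length_append (as := m)]
        omega
      · intro v hv
        rcases List.mem_append.1 hv with hv | hv
        · rcases hPm v hv with ⟨i, hi, hvi⟩ | ⟨j, hj, hvj, hvn⟩
          · exact Or.inl ⟨i, by omega, hvi⟩
          · exact Or.inr ⟨j, by omega, hvj, hvn⟩
        · rcases List.mem_append.1 hv with hv | hv
          · refine Or.inr ⟨k, by omega, ?_, hmc v hv⟩
            rw [hm]
            simp [hv]
          · exact Or.inl ⟨k + 1, le_rfl, hlD v hv⟩
  -- the last cycle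
  obtain ⟨a, ha, hac⟩ : ∃ a ∈ Dc N, ∀ j, j + 1 = N → a ∉ c j := by
    rcases Nat.eq_zero_or_pos N with h0 | h0
    · obtain ⟨x, hx⟩ := cycs_nonempty (hD N le_rfl)
      exact ⟨x, hx, fun j hj => by omega⟩
    · obtain ⟨M, rfl⟩ : ∃ M, N = M + 1 := ⟨N - 1, by omega⟩
      obtain ⟨a0, ha0, b0, hb0, m, hm, hmc⟩ := hshape M (by omega)
      obtain ⟨y, hy, hyb⟩ := cycs_other (hD (M + 1) le_rfl) hb0
      refine ⟨y, hy, ?_⟩
      intro j hj hyj
      have : j = M := by omega
      subst this
      rw [hm] at hyj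
      simp only [List.mem_cons, List.mem_append, List.not_mem_nil, or_false] at hyj
      rcases hyj with rfl | h | h
      · have := hdD j (by omega) (j + 1) le_rfl y ha0 hy
        omega
      · exact hmc y h (hcov (j + 1) le_rfl y hy)
      · exact hyb h
  obtain ⟨P, hP, -, hs, -⟩ := main N le_rfl a ha hac
  exact ⟨P, hP, hs⟩

end Pool.Agent.Lib.MP_688fd0_co.LIN.H42
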