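import Pool.Agent.Lib.MP_688fd0_co.LIN.Iface2
import Pool.Agent.Lib.MP_688fd0_co.LIN.H42.Gluep

/-!
Module GLUEC (helper42): cycles joined cyclically by disjoint connections give a long cycle.
-/

set_option autoImplicit false

namespace Pool.Agent.Lib.MP_688fd0_co.LIN.H42

open Classical
open Pool.Agent.Lib.MP_688fd0_co.LP (IsP Conn Cyc Symm cay)

universe u

theorem three_le_cycs {V : Type u} [Fintype V] {G H : SimpleGraph V} (hH : CF G H) {S : Finset V}
    (hS : S ∈ cycs H) : 3 ≤ S.card := by
  obtain ⟨x, hx⟩ := cycs_nonempty hS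
  obtain ⟨h1, h2⟩ := cycs_spec hS hx
  obtain ⟨y, hy⟩ := mem_cov.1 h1
  have h3 : dg H x = 2 := by
    rcases hH.deg x with h | h
    · exfalso
      unfold dg at h
      rw [Finset.card_eq_zero, Finset.filter_eq_empty_iff] at h
      exact h (Finset.mem_univ y) hy
    · exact h
  have h4 : insert x (Finset.univ.filter (fun w => H.Adj x w)) ⊆ S := by
    intro w hw
    rw [h2, mem_cyc]
    rw [Finset.mem_insert, Finset.mem_filter] at hw
    rcases hw with rfl | ⟨-, hw⟩
    · exact SimpleGraph.Reachable.refl _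
    · exact hw.reachable
  have h5 := Finset.card_le_card h4
  rw [Finset.card_insert_of_notMem (by simp)] at h5
  have h6 : (Finset.univ.filter (fun w => H.Adj x w)).card = 2 := h3
  omega

theorem gluec (hE : EnumStatement.{u}) : GluecStatement.{u} := by
  intro V _ G H N Dc c hH hN hD hDne hc hdis
  have hdD : ∀ i ≤ N, ∀ j ≤ N, ∀ v, v ∈ Dc i → v ∈ Dc j → i = j := by
    intro i hi j hj v hv hv'
    by_contra hne
    exact hDne i hi j hj hne ((cycs_spec (hD i hi) hv).2.trans (cycs_spec (hD j hj) hv').2.symm)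
  -- the shape of the connections
  have hshape : ∀ i ≤ N, ∃ a ∈ Dc i, ∃ b ∈ Dc ((i + 1) % (N + 1)), ∃ m : List V,
      c i = a :: (m ++ [b]) ∧ (∀ v ∈ m, ∀ j ≤ N, v ∉ Dc j) := by
    intro i hi
    obtain ⟨h1, ⟨a, ha, ha'⟩, ⟨b, hb, hb'⟩, hin⟩ := hc i hi
    have hmod : (i + 1) % (N + 1) ≤ N := Nat.lt_succ_iff.1 (Nat.mod_lt _ (Nat.succ_pos N))
    have hab : a ≠ b := by
      rintro rfl
      have h0 := hdD i hi _ hmod a ha hb
      rcases Nat.lt_or_ge i N with h | h
      · rw [Nat.mod_eq_of_lt (by omega)] at h0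
        omega
      · have : i = N := le_antisymm hi h
        subst this
        rw [Nat.mod_self] at h0
        omega
    obtain ⟨m, hm⟩ := ends_decomp ha' hb' hab
    refine ⟨a, ha, b, hb, m, hm, ?_⟩
    intro v hv
    apply hin v
    rw [hm]
    simpa using hv
  have hshape' : ∀ i < N, ∃ a ∈ Dc i, ∃ b ∈ Dc (i + 1), ∃ m : List V,
      c i = a :: (m ++ [b]) ∧ (∀ v ∈ m, ∀ j ≤ N, v ∉ Dc j) := by
    intro i hi
    have h := hshape i hi.le
    rw [Nat.mod_eq_of_lt (by omega)] at h
    exact h
  -- the last connection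
  obtain ⟨aN, haN, x0, hx0, mN, hmN, hmNc⟩ := hshape N le_rfl
  rw [Nat.mod_self] at hx0
  -- the induction
  have main : ∀ k, k ≤ N → ∀ a ∈ Dc k, (∀ j, j + 1 = k → a ∉ c j) → a ≠ x0 → ∃ P, IsP G P ∧
      P.head? = some x0 ∧
      P.getLast? = some a ∧ ∑ i ∈ Finset.range (k + 1), (Dc i).card ≤ 2 * P.length ∧
      ∀ v ∈ P, (∃ i ≤ k, v ∈ Dc i) ∨ (∃ j < k, v ∈ c j ∧ ∀ i ≤ N, v ∉ Dc i) := by
    intro k
    induction k with
    | zero =>
      intro h0 a ha _ hax
      obtain ⟨hx1, hx2⟩ := cycs_spec (hD 0 h0) hx0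
      have hr : H.Reachable x0 a := by
        rw [hx2, mem_cyc] at ha
        exact ha
      obtain ⟨l, h1, h2, h3, h4, h5⟩ := long_arc hE hH hx1 hr hax.symm
      refine ⟨l, ⟨h1.1, h1.2.1.imp fun _ _ h => hH.le h, h1.2.2⟩, h2, h3, ?_, ?_⟩
      · rw [Finset.sum_range_one, hx2]
        exact h5
      · intro v hv
        refine Or.inl ⟨0, le_rfl, ?_⟩
        rw [hx2, mem_cyc]
        exact h4 v hv
    | succ k ih =>
      intro hk a ha hak _
      obtain ⟨a0, ha0, b0, hb0, m, hm, hmc⟩ := hshape' k hk
      have ha0c : ∀ j, j + 1 = k → a0 ∉ c j := by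
        intro j hj h
        refine hdis j (by omega) k (by omega) (by omega) h ?_
        rw [hm]
        simp
      have ha0x : a0 ≠ x0 := by
        rintro rfl
        refine hdis k (by omega) N le_rfl (by omega) (a := a0) ?_ ?_
        · rw [hm]
          simp
        · rw [hmN]
          simp
      obtain ⟨P, hP, hPh, hPl, hPs, hPm⟩ := ih (by omega) a0 ha0 ha0c ha0x
      have hne : b0 ≠ a := by
        rintro rfl
        apply hak k rfl
        rw [hm]
        simp
      obtain ⟨hb1, hb2⟩ := cycs_spec (hD (k + 1) hk) hb0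
      have hr : H.Reachable b0 a := by
        rw [hb2, mem_cyc] at ha
        exact ha
      obtain ⟨l, h1, h2, h3, h4, h5⟩ := long_arc hE hH hb1 hr hne
      obtain ⟨P', rfl⟩ := List.getLast?_eq_some_iff.1 hPl
      obtain ⟨l', rfl⟩ : ∃ l', l = b0 :: l' := by
        cases l with
        | nil => simp at h2
        | cons z l' =>
          simp only [List.head?_cons, Option.some.injEq] at h2
          exact ⟨l', by rw [h2]⟩
      have hlD : ∀ v ∈ b0 :: l', v ∈ Dc (k + 1) := by
        intro v hv
        rw [hb2, mem_cyc]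
        exact h4 v hv
      have hckG := (hc k (by omega)).1
      rw [hm] at hckG
      refine ⟨(P' ++ [a0]) ++ (m ++ (b0 :: l')), ⟨by simp, ?_, ?_⟩, ?_, ?_, ?_, ?_⟩
      · have e : (P' ++ [a0]) ++ (m ++ (b0 :: l')) = P' ++ a0 :: (m ++ b0 :: l') := by simp
        rw [e, List.isChain_split]
        refine ⟨hP.2.1, ?_⟩
        have e2 : a0 :: (m ++ b0 :: l') = (a0 :: m) ++ b0 :: l' := by simp
        rw [e2, List.isChain_split]
        refine ⟨?_, h1.2.1.imp fun _ _ h => hH.le h⟩
        simpa using hckG.2.1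
      · rw [List.nodup_append]
        have hmn : m.Nodup := by
          refine hckG.2.2.sublist ?_
          exact (List.sublist_append_left m [b0]).trans (List.sublist_cons_self _ _)
        refine ⟨hP.2.2, List.nodup_append.2 ⟨hmn, h1.2.2, ?_⟩, ?_⟩
        · intro v hv w hw hvw
          subst hvw
          exact hmc v hv (k + 1) hk (hlD v hw)
        · intro v hv w hw hvw
          subst hvw
          rw [List.mem_append] at hw
          rcases hPm v hv with ⟨i, hi, hvi⟩ | ⟨j, hj, hvj, hvn⟩
          · rcases hw with hw | hw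
            · exact hmc v hw i (by omega) hvi
            · have := hdD i (by omega) (k + 1) hk v hvi (hlD v hw)
              omega
          · rcases hw with hw | hw
            · refine hdis j (by omega) k (by omega) (by omega) hvj ?_
              rw [hm]
              simp [hw]
            · exact hvn (k + 1) hk (hlD v hw)
      · rw [List.head?_append, hPh]
        rfl
      · have e3 : (P' ++ [a0]) ++ (m ++ (b0 :: l')) = ((P' ++ [a0]) ++ m) ++ (b0 :: l') := by simp
        rw [e3, List.getLast?_append, h3]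
        rfl
      · rw [Finset.sum_range_succ, hb2]
        rw [List.length_append, List.length_append (as := m)]
        omega
      · intro v hv
        rcases List.mem_append.1 hv with hv | hv
        · rcases hPm v hv with ⟨i, hi, hvi⟩ | ⟨j, hj, hvj, hvn⟩
          · exact Or.inl ⟨i, by omega, hvi⟩
          · exact Or.inr ⟨j, by omega, hvj, hvn⟩
        · rcases List.mem_append.1 hv with hv | hv
          · refine Or.inr ⟨k, by omega, ?_, hmc v hv⟩
            rw [hm]
            simp [hv]
          · exact Or.inl ⟨k + 1, le_rfl, hlD v hv⟩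
  -- closing the cycle
  have haNc : ∀ j, j + 1 = N → aN ∉ c j := by
    intro j hj h
    refine hdis j (by omega) N le_rfl (by omega) h ?_
    rw [hmN]
    simp
  have haNx : aN ≠ x0 := by
    rintro rfl
    have := hdD N le_rfl 0 (by omega) aN haN hx0
    omega
  obtain ⟨P, hP, hPh, hPl, hPs, hPm⟩ := main N le_rfl aN haN haNc haNx
  obtain ⟨P', rfl⟩ := List.getLast?_eq_some_iff.1 hPl
  have hcN := (hc N le_rfl).1
  rw [hmN] at hcN
  have hch : ((aN :: mN) ++ [x0]).IsChain G.Adj := by simpa using hcN.2.1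
  refine ⟨P' ++ aN :: mN, ⟨⟨by simp, ?_, ?_⟩, ?_, ?_⟩, ?_⟩
  · rw [List.isChain_split]
    exact ⟨hP.2.1, (List.isChain_append.1 hch).1⟩
  · have e : P' ++ aN :: mN = (P' ++ [aN]) ++ mN := by simp
    rw [e, List.nodup_append]
    have hmn : mN.Nodup := by
      refine hcN.2.2.sublist ?_
      exact (List.sublist_append_left mN [x0]).trans (List.sublist_cons_self _ _)
    refine ⟨hP.2.2, hmn, ?_⟩
    intro v hv w hw hvw
    subst hvw
    rcases hPm v hv with ⟨i, hi, hvi⟩ | ⟨j, hj, hvj, hvn⟩
    · exact hmNc v hw i hi hvi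
    · refine hdis j (by omega) N le_rfl (by omega) hvj ?_
      rw [hmN]
      simp [hw]
  · have h1 : (Dc 0).card + (Dc 1).card ≤ ∑ i ∈ Finset.range (N + 1), (Dc i).card := by
      rw [← Finset.sum_pair (f := fun i => (Dc i).card) (show (0 : ℕ) ≠ 1 by omega)]
      apply Finset.sum_le_sum_of_subset
      intro i hi
      rw [Finset.mem_insert, Finset.mem_singleton] at hi
      rw [Finset.mem_range]
      omega
    have h2 := three_le_cycs hH (hD 0 (by omega))
    have h3 := three_le_cycs hH (hD 1 hN)
    rw [List.length_append, List.length_singleton] at hPs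
    rw [List.length_append, List.length_cons]
    omega
  · obtain ⟨b, hb⟩ := exists_last (List.cons_ne_nil aN mN)
    refine ⟨x0, b, ?_, ?_, ?_⟩
    · have e : P' ++ aN :: mN = (P' ++ [aN]) ++ mN := by simp
      rw [e, List.head?_append, hPh]
      rfl
    · rw [List.getLast?_append, hb]
      rfl
    · exact (List.isChain_append.1 hch).2.2 b hb x0 rfl
  · refine hPs.trans ?_
    simp only [List.length_append, List.length_cons, List.length_nil]
    omega

end Pool.Agent.Lib.MP_688fd0_co.LIN.H42
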