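import Pool.Agent.Lib.MP_688fd0_co.LIN.H42.Partner

/-!
Module SURG1 (helper42): the new graph of a surgery is a cycle family.
-/

set_option autoImplicit false

namespace Pool.Agent.Lib.MP_688fd0_co.LIN.H42

open Classical
open Pool.Agent.Lib.MP_688fd0_co.LP (IsP Conn Cyc Symm cay)

universe u

section aux
variable {V : Type*}

theorem mem_inner {l : List V} {v : V} (hl : l.Nodup) (hv : v ∈ l) (he : ¬ IsEnd l v) :
    v ∈ l.tail.dropLast := by
  obtain ⟨s, t, rfl⟩ := List.append_of_mem hv
  rw [isEnd_iff hl] at he
  push Not at he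
  obtain ⟨hs, ht⟩ := he
  obtain ⟨a, s', rfl⟩ : ∃ a s', s = a :: s' := List.exists_cons_of_ne_nil hs
  rcases List.eq_nil_or_concat t with rfl | ⟨t', b, rfl⟩
  · exact absurd rfl ht
  · have e : (a :: s' ++ v :: t'.concat b).tail = (s' ++ v :: t') ++ [b] := by simp
    rw [e, List.dropLast_concat]
    simp

theorem length_inner (l : List V) : l.tail.dropLast.length = l.length - 2 := by
  rw [List.length_dropLast, List.length_tail]
  omega

end aux

theorem surg1 : Surg1Statement.{u} := by
  intro V _ G H arcs cons hS
  have hH := hS.cf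
  have harc := hS.arc
  have hpd := hS.arc_disj
  have hcd := hS.con_disj
  -- neighbours in connections are not neighbours in `H`
  have hnot : ∀ l ∈ cons, ∀ v w, pe l v w → ¬ H.Adj v w := by
    intro l hl v w hp hadj
    obtain ⟨⟨hne, hch, hnd⟩, hlen, hin⟩ := hS.con l hl
    have hvl := (pe_mem hp).1
    have hwl := (pe_mem hp).2
    have hcov : ∀ x y, H.Adj x y → x ∈ l → IsEnd l x := by
      intro x y hxy hx
      by_contra he
      refine hin x (mem_inner hnd hx he) ?_
      unfold cov
      simp only [Finset.mem_filter, Finset.mem_univ, true_and]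
      exact ⟨y, hxy⟩
    have hv := hcov v w hadj hvl
    have hw := hcov w v hadj.symm hwl
    have hvw := pe_ne hnd hp
    rcases hv with hv | hv <;> rcases hw with hw | hw
    · rw [hv, Option.some.injEq] at hw
      exact hvw hw
    · exact hS.diff l hl v w hv hw hadj
    · exact hS.diff l hl w v hw hv hadj.symm
    · rw [hv, Option.some.injEq] at hw
      exact hvw hw
  -- the degrees
  have hdeg : ∀ v, dg (newG H arcs cons) v = dg (restG H arcs) v +
      (Finset.univ.filter (fun w => ∃ l ∈ cons, pe l v w)).card := by
    intro v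
    unfold dg
    rw [← Finset.card_union_of_disjoint]
    · congr 1
      ext w
      simp only [Finset.mem_filter, Finset.mem_univ, true_and, Finset.mem_union]
      constructor
      · rintro (h | ⟨-, h⟩)
        · exact Or.inl h
        · exact Or.inr h
      · rintro (h | ⟨l, hl, hp⟩)
        · exact Or.inl h
        · exact Or.inr ⟨pe_ne (hS.con l hl).1.2.2 hp, l, hl, hp⟩
    · rw [Finset.disjoint_left]
      intro w hw hw'
      simp only [Finset.mem_filter, Finset.mem_univ, true_and] at hw hw'
      obtain ⟨l, hl, hp⟩ := hw'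
      exact hnot l hl v w hp hw.1
  have hcon : ∀ l ∈ cons, ∀ v ∈ l, (Finset.univ.filter (fun w => ∃ l' ∈ cons, pe l' v w)).card =
      if IsEnd l v then 1 else 2 := by
    intro l hl v hv
    rw [← card_pe (hS.con l hl).1.2.2 (hS.con l hl).2.1 hv]
    congr 1
    ext w
    simp only [Finset.mem_filter, Finset.mem_univ, true_and]
    constructor
    · rintro ⟨l', hl', hp⟩
      have : l' = l := by
        by_contra hne
        exact hcd l' hl' l hl hne (pe_mem hp).1 hv
      rwa [this] at hp
    · exact fun hp => ⟨l, hl, hp⟩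
  have hcon0 : ∀ v, (∀ l ∈ cons, v ∉ l) →
      (Finset.univ.filter (fun w => ∃ l' ∈ cons, pe l' v w)).card = 0 := by
    intro v hv
    rw [Finset.card_eq_zero, Finset.filter_eq_empty_iff]
    rintro w - ⟨l, hl, hp⟩
    exact hv l hl (pe_mem hp).1
  have hcovd : ∀ v, v ∉ cov H → dg (restG H arcs) v = 0 := by
    intro v hv
    unfold dg
    rw [Finset.card_eq_zero, Finset.filter_eq_empty_iff]
    intro w _ hw
    apply hv
    unfold cov
    simp only [Finset.mem_filter, Finset.mem_univ, true_and]
    exact ⟨w, hw.1⟩
  -- classification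
  have hclass : ∀ v, dg (newG H arcs cons) v = 2 ∨ (dg (newG H arcs cons) v = 0 ∧
      (v ∈ cov H → ∃ l ∈ arcs, v ∈ l.tail.dropLast)) := by
    intro v
    rw [hdeg v]
    by_cases hv : ∃ l ∈ cons, v ∈ l
    · left
      obtain ⟨l, hl, hvl⟩ := hv
      rw [hcon l hl v hvl]
      by_cases he : IsEnd l v
      · rw [if_pos he]
        obtain ⟨s, hs, hse⟩ := (hS.ends v).2 ⟨l, hl, he⟩
        rw [dg_restG hH harc hpd hs (isEnd_mem hse), if_pos hse]
      · rw [if_neg he]
        rw [hcovd v ((hS.con l hl).2.2 v (mem_inner (hS.con l hl).1.2.2 hvl he))]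
    · push Not at hv
      rw [hcon0 v hv, add_zero]
      have hnend : ∀ s ∈ arcs, ¬ IsEnd s v := by
        intro s hs hse
        obtain ⟨l, hl, he⟩ := (hS.ends v).1 ⟨s, hs, hse⟩
        exact hv l hl (isEnd_mem he)
      by_cases ha : ∃ s ∈ arcs, v ∈ s
      · right
        obtain ⟨s, hs, hvs⟩ := ha
        rw [dg_restG hH harc hpd hs hvs, if_neg (hnend s hs)]
        exact ⟨rfl, fun _ => ⟨s, hs, mem_inner (harc s hs).2.1 hvs (hnend s hs)⟩⟩
      · push Not at ha
        rw [dg_restG_of_notMem ha]
        rcases hH.deg v with h | h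
        · right
          refine ⟨h, fun hvc => ?_⟩
          exfalso
          unfold cov at hvc
          simp only [Finset.mem_filter, Finset.mem_univ, true_and] at hvc
          obtain ⟨w, hw⟩ := hvc
          unfold dg at h
          rw [Finset.card_eq_zero, Finset.filter_eq_empty_iff] at h
          exact h (Finset.mem_univ w) hw
        · left
          exact h
  refine ⟨⟨?_, ?_⟩, ?_⟩
  · rintro v w (h | ⟨-, l, hl, hp⟩)
    · exact hH.le h.1
    · exact pe_adj (hS.con l hl).1.2.1 hp
  · intro v
    rcases hclass v with h | h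
    · exact Or.inr h
    · exact Or.inl h.1
  · have hsub : cov H ⊆ cov (newG H arcs cons) ∪
        arcs.biUnion (fun l => l.tail.dropLast.toFinset) := by
      intro v hv
      rw [Finset.mem_union, Finset.mem_biUnion]
      rcases hclass v with h | h
      · left
        unfold cov
        simp only [Finset.mem_filter, Finset.mem_univ, true_and]
        by_contra hcon'
        push Not at hcon'
        have : dg (newG H arcs cons) v = 0 := by
          unfold dg
          rw [Finset.card_eq_zero, Finset.filter_eq_empty_iff]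
          exact fun w _ => hcon' w
        omega
      · right
        obtain ⟨l, hl, hvl⟩ := h.2 hv
        exact ⟨l, hl, List.mem_toFinset.2 hvl⟩
    refine (Finset.card_le_card hsub).trans ((Finset.card_union_le _ _).trans ?_)
    refine Nat.add_le_add_left (Finset.card_biUnion_le.trans ?_) _
    refine Finset.sum_le_sum fun l _ => ?_
    rw [← length_inner]
    exact List.toFinset_card_le _

end Pool.Agent.Lib.MP_688fd0_co.LIN.H42
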