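import Pool.Agent.Lib.MP_688fd0_co.LIN.H42.Partner

/-!
Module MERGE (helper42): merging two cycles.
-/

set_option autoImplicit false

namespace Pool.Agent.Lib.MP_688fd0_co.LIN.H42

open Classical
open Pool.Agent.Lib.MP_688fd0_co.LP (IsP Conn Cyc Symm cay)

universe u

section reach
variable {V : Type*} {G H : SimpleGraph V} {arcs cons : Finset (List V)}

theorem reach_of_chain {K : SimpleGraph V} : ∀ (l : List V) (a : V), l.IsChain K.Adj →
    l.head? = some a → ∀ v ∈ l, K.Reachable a v
  | [], a, _, h, _, _ => by simp at h
  | b :: t, a, hc, h, v, hv => by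
    simp only [List.head?_cons, Option.some.injEq] at h
    subst h
    rcases List.mem_cons.1 hv with rfl | hv
    · exact SimpleGraph.Reachable.refl _
    · cases t with
      | nil => simp at hv
      | cons b' t' =>
        rw [List.isChain_cons_cons] at hc
        exact hc.1.reachable.trans (reach_of_chain (b' :: t') b' hc.2 rfl v hv)

theorem reach_ends {K : SimpleGraph V} {l : List V} {a b : V} (hc : l.IsChain K.Adj)
    (ha : l.head? = some a) (hb : l.getLast? = some b) : K.Reachable a b :=
  reach_of_chain l a hc ha b (List.mem_of_getLast? hb)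

theorem reach_in_chain {K : SimpleGraph V} {l : List V} (hc : l.IsChain K.Adj) {v w : V}
    (hv : v ∈ l) (hw : w ∈ l) : K.Reachable v w := by
  cases l with
  | nil => simp at hv
  | cons a t =>
    exact (reach_of_chain (a :: t) a hc rfl v hv).symm.trans
      (reach_of_chain (a :: t) a hc rfl w hw)

theorem restG_le_newG : restG H arcs ≤ newG H arcs cons := fun _ _ h => Or.inl h

theorem restG_le : restG H arcs ≤ H := fun _ _ h => h.1

theorem con_chain {l : List V} (hl : l ∈ cons) (hn : l.Nodup) :
    l.IsChain (newG H arcs cons).Adj :=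
  (isChain_pe l).imp fun _ _ h => Or.inr ⟨pe_ne hn h, l, hl, h⟩

theorem arc_ends_reach [Fintype V] (hH : CF G H) (harc : ∀ l ∈ arcs, IsArc H l) (hpd : PD arcs)
    {α : List V} (hα : α ∈ arcs)
    (hsep : ∀ l' ∈ arcs, l' ≠ α → ∀ x ∈ α, ∀ y ∈ l', ¬ H.Reachable x y) {a a' : V}
    (ha : α.head? = some a) (ha' : α.getLast? = some a') : (restG H arcs).Reachable a a' := by
  obtain ⟨p', hp', hne, hr⟩ := partner V G H arcs hH harc hpd a (mem_endsOf.2 ⟨α, hα, Or.inl ha⟩)
  obtain ⟨l', hl', he⟩ := mem_endsOf.1 hp'
  have hr' : H.Reachable a p' := hr.mono restG_le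
  by_cases h : l' = α
  · subst h
    rcases he with he | he
    · rw [ha, Option.some.injEq] at he
      exact absurd he.symm hne
    · rw [ha', Option.some.injEq] at he
      rw [he]
      exact hr
  · exact absurd hr' (hsep l' hl' h a (isEnd_mem (Or.inl ha)) p' (isEnd_mem he))

theorem exists_isEnd_pair {α β : List V} {a a' b b' v : V} (ha : α.head? = some a)
    (ha' : α.getLast? = some a') (hb : β.head? = some b) (hb' : β.getLast? = some b') :
    (∃ l ∈ ({α, β} : Finset (List V)), IsEnd l v) ↔ (a = v ∨ a' = v) ∨ (b = v ∨ b' = v) := by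
  simp only [Finset.mem_insert, Finset.mem_singleton]
  constructor
  · rintro ⟨l, rfl | rfl, he⟩
    · left
      simpa [IsEnd, ha, ha'] using he
    · right
      simpa [IsEnd, hb, hb'] using he
  · rintro (h | h)
    · exact ⟨α, Or.inl rfl, by simpa [IsEnd, ha, ha'] using h⟩
    · exact ⟨β, Or.inr rfl, by simpa [IsEnd, hb, hb'] using h⟩

end reach

theorem merge (h1 : Surg1Statement.{u}) (h2 : Surg2Statement.{u}) : MergeStatement.{u} := by
  intro V _ G H l α β c c' hH hα hβ hsep hc hc' hin hin' hdis e1 e2 e3 e4
  -- the ends of the arcs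
  obtain ⟨a, ha⟩ : ∃ a, α.head? = some a := by
    cases h : α with
    | nil => have := hα.2.2; simp [h] at this
    | cons a t => exact ⟨a, rfl⟩
  obtain ⟨b, hb⟩ : ∃ b, β.head? = some b := by
    cases h : β with
    | nil => have := hβ.2.2; simp [h] at this
    | cons a t => exact ⟨a, rfl⟩
  obtain ⟨a', ha'⟩ : ∃ a', α.getLast? = some a' := by
    cases h : α.getLast? with
    | none =>
      rw [List.getLast?_eq_none_iff] at h
      have := hα.2.2
      simp [h] at this
    | some x => exact ⟨x, rfl⟩
  obtain ⟨b', hb'⟩ : ∃ b', β.getLast? = some b' := by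
    cases h : β.getLast? with
    | none =>
      rw [List.getLast?_eq_none_iff] at h
      have := hβ.2.2
      simp [h] at this
    | some x => exact ⟨x, rfl⟩
  have ma : a ∈ α := isEnd_mem (Or.inl ha)
  have ma' : a' ∈ α := isEnd_mem (Or.inr ha')
  have mb : b ∈ β := isEnd_mem (Or.inl hb)
  have mb' : b' ∈ β := isEnd_mem (Or.inr hb')
  rw [ha] at e1
  rw [ha'] at e2
  rw [hb] at e3
  rw [hb'] at e4
  have hαβ : α ≠ β := by
    rintro rfl
    exact hsep a ma a ma (SimpleGraph.Reachable.refl _)
  have hcc : c ≠ c' := by
    rintro rfl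
    exact hdis (isEnd_mem (Or.inl e1)) (isEnd_mem (Or.inl e1))
  have hlen : 2 ≤ c.length := by
    rcases c with _ | ⟨x, _ | ⟨y, t⟩⟩
    · simp at e1
    · simp only [List.head?_cons, Option.some.injEq] at e1
      simp only [List.getLast?_singleton, Option.some.injEq] at e3
      exfalso
      apply hsep a ma b mb
      rw [← e1, ← e3]
    · simp
  have hlen' : 2 ≤ c'.length := by
    rcases c' with _ | ⟨x, _ | ⟨y, t⟩⟩
    · simp at e2
    · simp only [List.head?_cons, Option.some.injEq] at e2
      simp only [List.getLast?_singleton, Option.some.injEq] at e4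
      exfalso
      apply hsep a' ma' b' mb'
      rw [← e2, ← e4]
    · simp
  have hS : Surg G H {α, β} {c, c'} := by
    refine ⟨hH, ?_, ?_, ?_, ?_, ?_, ?_⟩
    · intro l hl
      rw [Finset.mem_insert, Finset.mem_singleton] at hl
      rcases hl with rfl | rfl
      · exact hα
      · exact hβ
    · intro l hl l' hl' hne
      rw [Finset.mem_insert, Finset.mem_singleton] at hl hl'
      rcases hl with rfl | rfl <;> rcases hl' with rfl | rfl
      · exact absurd rfl hne
      · intro x hx hx'
        exact hsep x hx x hx' (SimpleGraph.Reachable.refl _)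
      · intro x hx hx'
        exact hsep x hx' x hx (SimpleGraph.Reachable.refl _)
      · exact absurd rfl hne
    · intro l hl
      rw [Finset.mem_insert, Finset.mem_singleton] at hl
      rcases hl with rfl | rfl
      · exact ⟨hc, hlen, hin⟩
      · exact ⟨hc', hlen', hin'⟩
    · intro l hl l' hl' hne
      rw [Finset.mem_insert, Finset.mem_singleton] at hl hl'
      rcases hl with rfl | rfl <;> rcases hl' with rfl | rfl
      · exact absurd rfl hne
      · exact hdis
      · exact fun x hx hx' => hdis hx' hx
      · exact absurd rfl hne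
    · intro v
      rw [exists_isEnd_pair ha ha' hb hb', exists_isEnd_pair e1 e3 e2 e4]
      tauto
    · intro l hl x y hx hy hadj
      rw [Finset.mem_insert, Finset.mem_singleton] at hl
      rcases hl with rfl | rfl
      · rw [e1, Option.some.injEq] at hx
        rw [e3, Option.some.injEq] at hy
        subst hx
        subst hy
        exact hsep _ ma _ mb hadj.reachable
      · rw [e2, Option.some.injEq] at hx
        rw [e4, Option.some.injEq] at hy
        subst hx
        subst hy
        exact hsep _ ma' _ mb' hadj.reachable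
  obtain ⟨k1, k2⟩ := h1 V G H {α, β} {c, c'} hS
  have k3 := h2 V G H {α, β} {c, c'} hS
  refine ⟨_, k1, ?_⟩
  -- the ends in `H`
  have r1 : (newG H {α, β} {c, c'}).Reachable a b :=
    reach_ends (con_chain (by simp) hc.2.2) e1 e3
  have r2 : (newG H {α, β} {c, c'}).Reachable a' b' :=
    reach_ends (con_chain (by simp) hc'.2.2) e2 e4
  have r3 : (newG H {α, β} {c, c'}).Reachable a a' := by
    refine (arc_ends_reach hH hS.arc hS.arc_disj (α := α) (by simp) ?_ ha ha').mono restG_le_newG
    intro l' hl' hne
    rw [Finset.mem_insert, Finset.mem_singleton] at hl'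
    rcases hl' with rfl | rfl
    · exact absurd rfl hne
    · exact hsep
  have e5 : ∀ v ∈ endsOf ({α, β} : Finset (List V)), v = a ∨ v = a' ∨ v = b ∨ v = b' := by
    intro v hv
    rw [mem_endsOf] at hv
    obtain ⟨l', hl', he⟩ := hv
    rw [Finset.mem_insert, Finset.mem_singleton] at hl'
    rcases hl' with rfl | rfl
    · rcases he with he | he
      · rw [ha, Option.some.injEq] at he
        exact Or.inl he.symm
      · rw [ha', Option.some.injEq] at he
        exact Or.inr (Or.inl he.symm)
    · rcases he with he | he
      · rw [hb, Option.some.injEq] at he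
        exact Or.inr (Or.inr (Or.inl he.symm))
      · rw [hb', Option.some.injEq] at he
        exact Or.inr (Or.inr (Or.inr he.symm))
  have k4 : ((endsOf {α, β}).image (cyc (newG H {α, β} {c, c'}))).card ≤ 1 := by
    rw [Finset.card_le_one]
    have key : ∀ v ∈ endsOf ({α, β} : Finset (List V)), (newG H {α, β} {c, c'}).Reachable a v := by
      intro v hv
      rcases e5 v hv with rfl | rfl | rfl | rfl
      · exact SimpleGraph.Reachable.refl _
      · exact r3
      · exact r1
      · exact r3.trans r2
    have key2 : ∀ S ∈ (endsOf ({α, β} : Finset (List V))).image (cyc (newG H {α, β} {c, c'})),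
        S = cyc (newG H {α, β} {c, c'}) a := by
      intro S hS'
      rw [Finset.mem_image] at hS'
      obtain ⟨v, hv, rfl⟩ := hS'
      have hr := key v hv
      unfold cyc
      ext w
      simp only [Finset.mem_filter, Finset.mem_univ, true_and]
      exact ⟨fun h => hr.trans h, fun h => hr.symm.trans h⟩
    intro S hS' T hT'
    rw [key2 S hS', key2 T hT']
  have k5 : 2 ≤ ((endsOf {α, β}).image (cyc H)).card := by
    have m1 : cyc H a ∈ (endsOf ({α, β} : Finset (List V))).image (cyc H) :=
      Finset.mem_image_of_mem _ (mem_endsOf.2 ⟨α, by simp, Or.inl ha⟩)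
    have m2 : cyc H b ∈ (endsOf ({α, β} : Finset (List V))).image (cyc H) :=
      Finset.mem_image_of_mem _ (mem_endsOf.2 ⟨β, by simp, Or.inl hb⟩)
    have hne : cyc H a ≠ cyc H b := by
      intro h
      have : b ∈ cyc H a := by
        rw [h]
        unfold cyc
        simp
      unfold cyc at this
      simp only [Finset.mem_filter, Finset.mem_univ, true_and] at this
      exact hsep a ma b mb this
    rw [← Finset.card_pair hne]
    apply Finset.card_le_card
    intro x hx
    rw [Finset.mem_insert, Finset.mem_singleton] at hx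
    rcases hx with rfl | rfl
    · exact m1
    · exact m2
  have k6 : ncyc (newG H {α, β} {c, c'}) + 1 ≤ ncyc H := by omega
  rw [Finset.sum_pair hαβ] at k2
  have l1 := hα.2.2
  have l2 := hβ.2.2
  unfold phi
  have k7 : ((cov H).card : ℤ) + 4 ≤ (cov (newG H {α, β} {c, c'})).card + α.length + β.length := by
    omega
  have k8 : (l : ℤ) * (ncyc (newG H {α, β} {c, c'}) + 1) ≤ l * ncyc H := by
    apply mul_le_mul_of_nonneg_left _ (by positivity)
    exact_mod_cast k6
  linarith

end Pool.Agent.Lib.MP_688fd0_co.LIN.H42
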