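import Pool.Agent.Lib.MP_688fd0_co.LIN.Iface

/-!
Module PARTNER (helper42): degrees in `restG`, and the handshake lemma.
-/

set_option autoImplicit false

namespace Pool.Agent.Lib.MP_688fd0_co.LIN.H42

open Classical
open Pool.Agent.Lib.MP_688fd0_co.LP (IsP Conn Cyc Symm cay)

universe u

/-! ### Lists -/

section lists
variable {V : Type*}

theorem pe_comm {l : List V} {a b : V} : pe l a b ↔ pe l b a := by
  unfold pe
  exact or_comm

theorem pe_mem {l : List V} {a b : V} (h : pe l a b) : a ∈ l ∧ b ∈ l := by
  rcases h with h | h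
  · exact ⟨h.subset (by simp), h.subset (by simp)⟩
  · exact ⟨h.subset (by simp), h.subset (by simp)⟩

theorem notMem_of_nodup {s t : List V} {v : V} (h : (s ++ v :: t).Nodup) : v ∉ s ∧ v ∉ t := by
  rw [List.nodup_append] at h
  obtain ⟨-, h2, h3⟩ := h
  refine ⟨fun hv => h3 v hv v (by simp) rfl, ?_⟩
  exact (List.nodup_cons.1 h2).1

theorem infix_right {s t : List V} {v w : V} (h : (s ++ v :: t).Nodup) :
    [v, w] <:+: (s ++ v :: t) ↔ t.head? = some w := by
  obtain ⟨h1, h2⟩ := notMem_of_nodup h
  constructor
  · rintro ⟨s', t', h'⟩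
    have h3 : s ++ v :: t = s' ++ v :: (w :: t') := by
      rw [← h']
      simp
    rw [List.append_cons_inj_of_notMem h1 h2] at h3
    rw [h3.2.2]
    rfl
  · intro h'
    cases t with
    | nil => simp at h'
    | cons b t' =>
      simp only [List.head?_cons, Option.some.injEq] at h'
      subst h'
      exact ⟨s, t', by simp⟩

theorem infix_left {s t : List V} {v w : V} (h : (s ++ v :: t).Nodup) :
    [w, v] <:+: (s ++ v :: t) ↔ s.getLast? = some w := by
  obtain ⟨h1, h2⟩ := notMem_of_nodup h
  constructor
  · rintro ⟨s', t', h'⟩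
    have h3 : s ++ v :: t = (s' ++ [w]) ++ v :: t' := by
      rw [← h']
      simp
    rw [List.append_cons_inj_of_notMem h1 h2] at h3
    rw [h3.1]
    simp
  · intro h'
    rw [List.getLast?_eq_some_iff] at h'
    obtain ⟨s', rfl⟩ := h'
    exact ⟨s', t, by simp⟩

theorem pe_iff {s t : List V} {v w : V} (h : (s ++ v :: t).Nodup) :
    pe (s ++ v :: t) v w ↔ t.head? = some w ∨ s.getLast? = some w := by
  unfold pe
  rw [infix_right h, infix_left h]

theorem pe_ne {l : List V} {a b : V} (hl : l.Nodup) (h : pe l a b) : a ≠ b := by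
  rintro rfl
  have h1 : [a, a] <:+: l := by
    rcases h with h | h <;> exact h
  have h2 := h1.sublist.nodup hl
  simp at h2

theorem isEnd_iff {s t : List V} {v : V} (h : (s ++ v :: t).Nodup) :
    IsEnd (s ++ v :: t) v ↔ s = [] ∨ t = [] := by
  obtain ⟨h1, h2⟩ := notMem_of_nodup h
  unfold IsEnd
  constructor
  · rintro (h' | h')
    · left
      cases s with
      | nil => rfl
      | cons a s' =>
        simp only [List.cons_append, List.head?_cons, Option.some.injEq] at h'
        subst h'
        simp at h1
    · right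
      rw [List.getLast?_eq_some_iff] at h'
      obtain ⟨s', h'⟩ := h'
      rw [List.append_cons_inj_of_notMem h1 h2] at h'
      exact h'.2.2
  · rintro (rfl | rfl)
    · left
      rfl
    · right
      simp

theorem isEnd_mem {l : List V} {v : V} (h : IsEnd l v) : v ∈ l := by
  rcases h with h | h
  · cases l with
    | nil => simp at h
    | cons a t =>
      simp only [List.head?_cons, Option.some.injEq] at h
      simp [h]
  · exact List.mem_of_getLast? h

/-- number of neighbours in a list -/
theorem card_pe [Fintype V] {l : List V} {v : V} (hl : l.Nodup) (h2 : 2 ≤ l.length) (hv : v ∈ l) :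
    (Finset.univ.filter (fun w => pe l v w)).card = if IsEnd l v then 1 else 2 := by
  obtain ⟨s, t, rfl⟩ := List.append_of_mem hv
  simp only [pe_iff hl, isEnd_iff hl]
  rcases List.eq_nil_or_concat s with rfl | ⟨s', a, rfl⟩
  · cases t with
    | nil => simp at h2
    | cons b t' =>
      have : Finset.univ.filter (fun w => (b :: t').head? = some w ∨ ([] : List V).getLast? = some w)
          = {b} := by
        ext w
        simp [eq_comm]
      rw [this]
      simp
  · cases t with
    | nil =>
      have : Finset.univ.filter (fun w => ([] : List V).head? = some w ∨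
          (s' ++ [a]).getLast? = some w) = {a} := by
        ext w
        simp [eq_comm]
      rw [List.concat_eq_append, this]
      simp
    | cons b t' =>
      have hab : a ≠ b := by
        rintro rfl
        rw [List.nodup_append] at hl
        exact hl.2.2 a (by simp) a (by simp) rfl
      have : Finset.univ.filter (fun w => (b :: t').head? = some w ∨
          (s' ++ [a]).getLast? = some w) = {b, a} := by
        ext w
        simp [eq_comm]
      rw [List.concat_eq_append, this, Finset.card_pair hab.symm]
      simp

/-- consecutive elements of a chain -/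
theorem chain_infix {R : V → V → Prop} {l : List V} (h : l.IsChain R) {a b : V}
    (hab : [a, b] <:+: l) : R a b := by
  obtain ⟨s, t, rfl⟩ := hab
  rw [List.append_assoc, List.isChain_append] at h
  have h1 := h.2.1
  simp only [List.cons_append, List.nil_append, List.isChain_cons_cons] at h1
  exact h1.1

theorem isChain_pe (l : List V) : l.IsChain (pe l) := by
  rw [List.isChain_iff_getElem]
  intro i hi
  left
  refine ⟨l.take i, l.drop (i + 2), ?_⟩
  have h1 : l.drop i = l[i] :: l[i + 1] :: l.drop (i + 2) := by
    rw [List.drop_eq_getElem_cons (by omega), List.drop_eq_getElem_cons (by omega)]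
  calc l.take i ++ [l[i], l[i + 1]] ++ l.drop (i + 2)
      = l.take i ++ (l[i] :: l[i + 1] :: l.drop (i + 2)) := by simp
    _ = l := by rw [← h1, List.take_append_drop]

end lists

/-! ### Degrees -/

section degrees
variable {V : Type*} {G H : SimpleGraph V} {arcs cons : Finset (List V)}

theorem pe_adj {l : List V} (h : l.IsChain H.Adj) {a b : V} (hab : pe l a b) : H.Adj a b := by
  rcases hab with h' | h'
  · exact chain_infix h h'
  · exact (chain_infix h h').symm

theorem restG_adj_of_mem (hpd : PD arcs) {l : List V} (hl : l ∈ arcs) {v w : V} (hv : v ∈ l) :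
    (restG H arcs).Adj v w ↔ H.Adj v w ∧ ¬ pe l v w := by
  constructor
  · exact fun h => ⟨h.1, h.2 l hl⟩
  · rintro ⟨h1, h2⟩
    refine ⟨h1, fun l' hl' hp => ?_⟩
    by_cases h : l' = l
    · subst h
      exact h2 hp
    · exact (hpd l' hl' l hl h) (pe_mem hp).1 hv

variable [Fintype V]

theorem dg_restG (hH : CF G H) (harc : ∀ l ∈ arcs, IsArc H l) (hpd : PD arcs) {l : List V}
    (hl : l ∈ arcs) {v : V} (hv : v ∈ l) :
    dg (restG H arcs) v = if IsEnd l v then 1 else 0 := by
  obtain ⟨hch, hnd, hlen⟩ := harc l hl
  have h1 := card_pe hnd hlen hv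
  have hsub : Finset.univ.filter (fun w => pe l v w) ⊆ Finset.univ.filter (fun w => H.Adj v w) := by
    intro w hw
    rw [Finset.mem_filter] at hw ⊢
    exact ⟨hw.1, pe_adj hch hw.2⟩
  have h2 : dg H v = 2 := by
    rcases hH.deg v with h | h
    · have h3 := Finset.card_le_card hsub
      have h4 : (Finset.univ.filter (fun w => H.Adj v w)).card = 0 := h
      rw [h1, h4] at h3
      split_ifs at h3 <;> omega
    · exact h
  have h3 : Finset.univ.filter (fun w => (restG H arcs).Adj v w)
      = Finset.univ.filter (fun w => H.Adj v w) \ Finset.univ.filter (fun w => pe l v w) := by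
    ext w
    simp only [Finset.mem_filter, Finset.mem_univ, true_and, Finset.mem_sdiff,
      restG_adj_of_mem hpd hl hv]
  have h4 : dg (restG H arcs) v = dg H v - (Finset.univ.filter (fun w => pe l v w)).card := by
    unfold dg
    rw [h3, Finset.card_sdiff_of_subset hsub]
  rw [h4, h1, h2]
  split_ifs <;> rfl

theorem dg_restG_of_notMem {v : V} (h : ∀ l ∈ arcs, v ∉ l) : dg (restG H arcs) v = dg H v := by
  unfold dg
  congr 1
  ext w
  simp only [Finset.mem_filter, Finset.mem_univ, true_and]
  constructor
  · exact fun h' => h'.1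
  · exact fun h' => ⟨h', fun l hl hp => h l hl (pe_mem hp).1⟩

theorem mem_endsOf {v : V} : v ∈ endsOf arcs ↔ ∃ l ∈ arcs, IsEnd l v := by
  unfold endsOf
  simp

/-- odd degree in `restG` exactly at the ends of arcs -/
theorem odd_dg_restG (hH : CF G H) (harc : ∀ l ∈ arcs, IsArc H l) (hpd : PD arcs) (v : V) :
    Odd (dg (restG H arcs) v) ↔ v ∈ endsOf arcs := by
  by_cases h : ∃ l ∈ arcs, v ∈ l
  · obtain ⟨l, hl, hv⟩ := h
    rw [dg_restG hH harc hpd hl hv, mem_endsOf]
    by_cases he : IsEnd l v
    · rw [if_pos he]
      exact ⟨fun _ => ⟨l, hl, he⟩, fun _ => odd_one⟩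
    · rw [if_neg he]
      constructor
      · intro h'
        simp at h'
      · rintro ⟨l', hl', he'⟩
        by_cases hll : l' = l
        · subst hll
          exact absurd he' he
        · exact absurd hv ((hpd l' hl' l hl hll) (isEnd_mem he'))
  · push Not at h
    rw [dg_restG_of_notMem h, mem_endsOf]
    constructor
    · intro h'
      exfalso
      rcases hH.deg v with h2 | h2
      · rw [h2] at h'
        exact absurd h' (by decide)
      · rw [h2] at h'
        exact absurd h' (by decide)
    · rintro ⟨l, hl, he⟩
      exact absurd (isEnd_mem he) (h l hl)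

theorem dg_eq_degree (K : SimpleGraph V) (v : V) : K.degree v = dg K v := by
  unfold dg
  rw [← SimpleGraph.card_neighborFinset_eq_degree]
  congr 1
  ext w
  simp

/-- the part of a graph reachable from `p` -/
def part (K : SimpleGraph V) (p : V) : SimpleGraph V where
  Adj a b := K.Adj a b ∧ K.Reachable p a
  symm := ⟨fun _ _ h => ⟨h.1.symm, h.2.trans h.1.reachable⟩⟩
  loopless := ⟨fun a h => K.loopless.irrefl a h.1⟩

theorem dg_part (K : SimpleGraph V) (p v : V) :
    dg (part K p) v = if K.Reachable p v then dg K v else 0 := by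
  unfold dg part
  by_cases h : K.Reachable p v
  · simp [h]
  · simp [h]

/-- handshake lemma in a component -/
theorem exists_odd (K : SimpleGraph V) (p : V) (hp : Odd (dg K p)) :
    ∃ p', p' ≠ p ∧ K.Reachable p p' ∧ Odd (dg K p') := by
  have h1 : Odd ((part K p).degree p) := by
    rw [dg_eq_degree, dg_part, if_pos (SimpleGraph.Reachable.refl p)]
    exact hp
  obtain ⟨w, hw, ho⟩ := SimpleGraph.exists_ne_odd_degree_of_exists_odd_degree _ p h1
  rw [dg_eq_degree, dg_part] at ho
  by_cases h : K.Reachable p w
  · rw [if_pos h] at ho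
    exact ⟨w, hw, h, ho⟩
  · rw [if_neg h] at ho
    simp at ho

end degrees

theorem partner : PartnerStatement.{u} := by
  intro V _ G H arcs hH harc hpd p hp
  obtain ⟨p', h1, h2, h3⟩ := exists_odd (restG H arcs) p ((odd_dg_restG hH harc hpd p).2 hp)
  exact ⟨p', (odd_dg_restG hH harc hpd p').1 h3, h1, h2⟩

end Pool.Agent.Lib.MP_688fd0_co.LIN.H42
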